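import Mathlib
import Pool.Agent.U462.Gap.Up

/-!
First occurrences of gaps in a set of natural numbers, from information on the empty windows of length
`c log² n`.
-/

set_option autoImplicit false

open Filter Topology

namespace Pool.Agent.U215.Sk

open Pool.Agent.U462.Gap (ZZ wl)

/-- the elements of `S` whose predecessor in `S` is smaller by more than `g` -/
def After (S : Set ℕ) (g : ℕ) : Set ℕ :=
  {q | q ∈ S ∧ ∃ q' ∈ S, q' + g < q ∧ ∀ m, q' < m → m < q → m ∉ S}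

/-- the least of them -/
noncomputable def fst (S : Set ℕ) (g : ℕ) : ℕ := sInf (After S g)

/-- an element in every window `(n, 4 n]`, `n` large -/
def Dns (S : Set ℕ) : Prop := ∀ᶠ n : ℕ in atTop, ∃ m ∈ S, n < m ∧ m ≤ 4 * n

lemma fst_le (S : Set ℕ) (n w g : ℕ) (hn : ∃ m ∈ S, m ≤ n) (hd : ∃ m ∈ S, n < m ∧ m ≤ 4 * n)
    (hw : ∀ m, n < m → m ≤ n + w → m ∉ S) (hg : g ≤ w) :
    (After S g).Nonempty ∧ fst S g ≤ 4 * n := by
  classical
  obtain ⟨m0, hm0, hm0n⟩ := hn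
  obtain ⟨m1, hm1, hm1n, hm12⟩ := hd
  have hex : ∃ m, n < m ∧ m ∈ S := ⟨m1, hm1n, hm1⟩
  set q := Nat.find hex with hq
  have hq1 := Nat.find_spec hex
  rw [← hq] at hq1
  have hqm : q ≤ m1 := Nat.find_min' hex ⟨hm1n, hm1⟩
  set q' := Nat.findGreatest (· ∈ S) n with hq'
  have hq'1 : q' ∈ S := Nat.findGreatest_spec (P := (· ∈ S)) hm0n hm0
  have hq'2 : q' ≤ n := Nat.findGreatest_le n
  have hmem : q ∈ After S g := by
    refine ⟨hq1.2, q', hq'1, ?_, ?_⟩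
    · have h1 : n + w < q := by
        by_contra hcon
        push Not at hcon
        exact hw q hq1.1 hcon hq1.2
      omega
    · intro m h1 h2 hm
      rcases le_or_gt m n with h3 | h3
      · exact Nat.findGreatest_is_greatest h1 h3 hm
      · exact Nat.find_min hex h2 ⟨h3, hm⟩
  exact ⟨⟨q, hmem⟩, (Nat.sInf_le hmem).trans (by omega)⟩

/-- the upper bound -/
lemma up (S : Set ℕ) (hd : Dns S) {c : ℝ} (hc : 0 < c) (hZ : ∀ᶠ i : ℕ in atTop, 0 < ZZ S c i) :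
    ∀ᶠ g : ℕ in atTop, (After S g).Nonempty ∧ Real.log (fst S g) ≤ √g / √c + 4 * Real.log 2 := by
  classical
  have hl2 : 0 < Real.log 2 := Real.log_pos (by norm_num)
  obtain ⟨n₀, hn₀⟩ := eventually_atTop.1 hd
  obtain ⟨i₀, hi₀⟩ := eventually_atTop.1 hZ
  obtain ⟨m0, hm0, hm0n, hm02⟩ := hn₀ n₀ le_rfl
  have h1 : Tendsto (fun g : ℕ => √(g : ℝ) / √c / Real.log 2) atTop atTop := by
    apply Tendsto.atTop_div_const hl2
    apply Tendsto.atTop_div_const (by positivity)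
    exact Real.tendsto_sqrt_atTop.comp tendsto_natCast_atTop_atTop
  filter_upwards [h1.eventually_ge_atTop ((i₀ + 4 * n₀ : ℕ) : ℝ)] with g hg
  set i : ℕ := ⌈√(g : ℝ) / √c / Real.log 2⌉₊ with hi
  have hi1 : √(g : ℝ) / √c / Real.log 2 ≤ i := Nat.le_ceil _
  have hi2 : (i : ℝ) < √(g : ℝ) / √c / Real.log 2 + 1 := Nat.ceil_lt_add_one (by positivity)
  have hi3 : i₀ + 4 * n₀ ≤ i := by exact_mod_cast hg.trans hi1
  have h2 := hi₀ i (by omega)
  unfold ZZ at h2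
  obtain ⟨n, hn⟩ := Finset.card_pos.1 h2
  rw [Finset.mem_filter, Finset.mem_Ico] at hn
  obtain ⟨⟨hn1, hn2⟩, hn3⟩ := hn
  have hii : i < 2 ^ i := Nat.lt_two_pow_self
  have hnr : (0 : ℝ) < n := by
    have : 0 < n := by omega
    exact_mod_cast this
  have hlogn : i * Real.log 2 ≤ Real.log n := by
    rw [← Real.log_pow]
    exact Real.log_le_log (by positivity) (by exact_mod_cast hn1)
  have h3 : √(g : ℝ) / √c ≤ Real.log n := by
    rw [div_le_iff₀ hl2] at hi1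
    exact hi1.trans hlogn
  have hgw : g ≤ wl c n := by
    unfold wl
    apply Nat.le_floor
    have h4 : (√(g : ℝ) / √c) ^ 2 ≤ Real.log n ^ 2 := pow_le_pow_left₀ (by positivity) h3 2
    rw [div_pow, Real.sq_sqrt (Nat.cast_nonneg g), Real.sq_sqrt hc.le, div_le_iff₀ hc] at h4
    linarith
  obtain ⟨h5, h6⟩ := fst_le S n (wl c n) g ⟨m0, hm0, by omega⟩ (hn₀ n (by omega)) hn3 hgw
  refine ⟨h5, ?_⟩
  rcases Nat.eq_zero_or_pos (fst S g) with h7 | h7
  · rw [h7]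
    simp
    positivity
  · have h8 : (0 : ℝ) < fst S g := by exact_mod_cast h7
    have h9 : (fst S g : ℝ) ≤ 2 ^ (i + 3) := by
      have h10 : fst S g ≤ 2 ^ (i + 3) := by
        have e : 2 ^ (i + 3) = 4 * 2 ^ (i + 1) := by ring
        omega
      exact_mod_cast h10
    have h10 := Real.log_le_log h8 h9
    rw [Real.log_pow] at h10
    push_cast at h10
    have h11 : (i : ℝ) * Real.log 2 ≤ (√(g : ℝ) / √c / Real.log 2 + 1) * Real.log 2 :=
      mul_le_mul_of_nonneg_right hi2.le hl2.le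
    have h12 : (√(g : ℝ) / √c / Real.log 2 + 1) * Real.log 2 = √(g : ℝ) / √c + Real.log 2 := by
      field_simp
    linarith

/-- the lower bound -/
lemma low (S : Set ℕ) {c : ℝ} (hc : 0 < c)
    (hZ : ∀ᶠ i : ℕ in atTop, ZZ S c i = 0) :
    ∀ᶠ g : ℕ in atTop, (After S g).Nonempty → √g / √c ≤ Real.log (fst S g) := by
  classical
  have hZ' : ∀ᶠ n : ℕ in atTop, ∃ m, n < m ∧ m ≤ n + wl c n ∧ m ∈ S := by
    obtain ⟨i₀, hi₀⟩ := eventually_atTop.1 hZ
    filter_upwards [eventually_ge_atTop (2 ^ i₀)] with n hn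
    have hn0 : n ≠ 0 := by
      have : 0 < 2 ^ i₀ := by positivity
      omega
    obtain ⟨i, hi⟩ : ∃ i, i = Nat.log 2 n := ⟨_, rfl⟩
    have h1 : 2 ^ i ≤ n := by rw [hi]; exact Nat.pow_log_le_self 2 hn0
    have h2 : n < 2 ^ (i + 1) := by rw [hi]; exact Nat.lt_pow_succ_log_self (by norm_num) n
    have h3 : i₀ ≤ i := by
      rw [hi]
      exact Nat.le_log_of_pow_le (by norm_num) hn
    have h4 := hi₀ i h3
    unfold ZZ at h4
    rw [Finset.card_eq_zero, Finset.filter_eq_empty_iff] at h4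
    have h5 := h4 (Finset.mem_Ico.2 ⟨h1, h2⟩)
    push Not at h5
    exact h5
  obtain ⟨n₀, hn₀⟩ := eventually_atTop.1 hZ'
  obtain ⟨M, hM1, hM2, hM3⟩ := hn₀ (n₀ + 1) (by omega)
  filter_upwards [eventually_ge_atTop M] with g hg hne
  have hmem : fst S g ∈ After S g := Nat.sInf_mem hne
  set q := fst S g with hq
  obtain ⟨hqS, q', hq'S, hqq, hno⟩ := hmem
  have hq'n : n₀ + 1 ≤ q' := by
    by_contra hcon
    push Not at hcon
    exact hno M (by omega) (by omega) hM3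
  obtain ⟨m, hm1, hm2, hm3⟩ := hn₀ q' (by omega)
  have hqm : q ≤ m := by
    by_contra hcon
    push Not at hcon
    exact hno m hm1 hcon hm3
  have h1 : g ≤ wl c q' := by omega
  have hq'0 : (1 : ℝ) ≤ q' := by
    have : 1 ≤ q' := by omega
    exact_mod_cast this
  have h2 : (g : ℝ) ≤ c * Real.log q' ^ 2 := by
    have h3 : (wl c q' : ℝ) ≤ c * Real.log q' ^ 2 := Nat.floor_le (by positivity)
    have h4 : (g : ℝ) ≤ wl c q' := by exact_mod_cast h1
    linarith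
  have h3 : 0 ≤ Real.log q' := Real.log_nonneg hq'0
  have h4 : Real.log q' ≤ Real.log q := by
    apply Real.log_le_log (by linarith)
    have : q' ≤ q := by omega
    exact_mod_cast this
  have h5 : √(g : ℝ) / √c ≤ Real.log q' := by
    rw [← Real.sqrt_div (Nat.cast_nonneg g), ← Real.sqrt_sq h3]
    apply Real.sqrt_le_sqrt
    rw [div_le_iff₀ hc]
    linarith
  exact h5.trans h4

lemma sqrt_tend : Tendsto (fun g : ℕ => √(g : ℝ)) atTop atTop :=
  Real.tendsto_sqrt_atTop.comp tendsto_natCast_atTop_atTop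

/-- limsup version -/
theorem limsup_le (S : Set ℕ) (hd : Dns S) {C : ℝ} (hC : 0 < C)
    (h : ∀ c : ℚ, 0 < c → (c : ℝ) < C → ∀ᶠ i : ℕ in atTop, 0 < ZZ S c i) {ε : ℝ} (hε : 0 < ε) :
    ∀ᶠ g : ℕ in atTop, (After S g).Nonempty ∧ Real.log (fst S g) / √g ≤ 1 / √C + ε := by
  have h1 : Tendsto (fun c : ℝ => 1 / √c) (𝓝[<] C) (𝓝 (1 / √C)) := by
    apply Tendsto.mono_left _ nhdsWithin_le_nhds
    have : ContinuousAt (fun c : ℝ => 1 / √c) C := by
      apply ContinuousAt.div continuousAt_const Real.continuous_sqrt.continuousAt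
      positivity
    exact this
  have h2 : ∀ᶠ c : ℝ in 𝓝[<] C, 1 / √c < 1 / √C + ε / 2 := h1.eventually (gt_mem_nhds (by linarith))
  have h3 : ∀ᶠ c : ℝ in 𝓝[<] C, 0 < c := nhdsWithin_le_nhds (lt_mem_nhds hC)
  obtain ⟨l, hl, hl2⟩ := (mem_nhdsLT_iff_exists_Ioo_subset (a := C)).1 (h2.and h3)
  obtain ⟨q, hq1, hq2⟩ := exists_rat_btwn (Set.mem_Iio.1 hl)
  obtain ⟨h4, h5⟩ := hl2 ⟨hq1, hq2⟩
  have hq0 : (0 : ℝ) < q := h5
  filter_upwards [up S hd hq0 (h q (by exact_mod_cast hq0) hq2),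
    sqrt_tend.eventually_ge_atTop (4 * Real.log 2 / (ε / 2)), eventually_gt_atTop 0] with g hg hg2 hg3
  refine ⟨hg.1, ?_⟩
  have hg0 : (0 : ℝ) < √g := Real.sqrt_pos.2 (by exact_mod_cast hg3)
  rw [div_le_iff₀ hg0]
  rw [div_le_iff₀ (by positivity)] at hg2
  have h6 : √(g : ℝ) / √(q : ℝ) ≤ (1 / √C + ε / 2) * √g := by
    have e : √(g : ℝ) / √(q : ℝ) = (1 / √(q : ℝ)) * √g := by ring
    rw [e]
    exact mul_le_mul_of_nonneg_right h4.le hg0.le
  linarith [hg.2]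

/-- liminf version -/
theorem le_liminf (S : Set ℕ) {C : ℝ} (hC : 0 < C)
    (h : ∀ c : ℚ, C < (c : ℝ) → ∀ᶠ i : ℕ in atTop, ZZ S c i = 0) {ε : ℝ} (hε : 0 < ε) :
    ∀ᶠ g : ℕ in atTop, (After S g).Nonempty → 1 / √C - ε ≤ Real.log (fst S g) / √g := by
  have h1 : Tendsto (fun c : ℝ => 1 / √c) (𝓝[>] C) (𝓝 (1 / √C)) := by
    apply Tendsto.mono_left _ nhdsWithin_le_nhds
    have : ContinuousAt (fun c : ℝ => 1 / √c) C := by
      apply ContinuousAt.div continuousAt_const Real.continuous_sqrt.continuousAt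
      positivity
    exact this
  have h2 : ∀ᶠ c : ℝ in 𝓝[>] C, 1 / √C - ε < 1 / √c := h1.eventually (lt_mem_nhds (by linarith))
  obtain ⟨l, hl, hl2⟩ := (mem_nhdsGT_iff_exists_Ioo_subset (a := C)).1 h2
  obtain ⟨q, hq1, hq2⟩ := exists_rat_btwn (Set.mem_Ioi.1 hl)
  have h4 := hl2 ⟨hq1, hq2⟩
  have hq0 : (0 : ℝ) < q := hC.trans hq1
  filter_upwards [low S hq0 (h q hq1), eventually_gt_atTop 0] with g hg hg3 hne
  have hg0 : (0 : ℝ) < √g := Real.sqrt_pos.2 (by exact_mod_cast hg3)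
  rw [le_div_iff₀ hg0]
  have h6 : (1 / √C - ε) * √g ≤ √(g : ℝ) / √(q : ℝ) := by
    have e : √(g : ℝ) / √(q : ℝ) = (1 / √(q : ℝ)) * √g := by ring
    rw [e]
    exact mul_le_mul_of_nonneg_right (le_of_lt h4) hg0.le
  exact h6.trans (hg hne)

end Pool.Agent.U215.Sk
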