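import Mathlib
import Pool.Agent.U215.Sk.Det
import Pool.Agent.U462.Gap.Fin

/-!
Shanks' conjecture in sequential random models of the primes.
-/

set_option autoImplicit false
set_option linter.unusedSectionVars false

open MeasureTheory Filter Set
open scoped ENNReal Topology

namespace Pool.Agent.U215.Sk

open Pool.Agent.U462.Gap

variable {Ω : Type} {m0 : MeasurableSpace Ω} {μ : Measure Ω} [IsProbabilityMeasure μ]
  {ℱ : Filtration ℕ m0} {A : ℕ → Set Ω} {a : ℕ → ℝ}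

open Pool.Agent.R528.RM (dens WV dens_meas WV_meas)

/-- a random set with large masses of the blocks has an element in all large blocks -/
lemma dns_of_mass (h : Model μ ℱ A a) (ha : ∀ n, 0 ≤ a n) (ha0 : Tendsto a atTop (𝓝 0))
    (hm : ∀ᶠ i : ℕ in atTop, (i : ℝ) ≤ ∑ m ∈ Finset.Ioc (2 ^ i) (2 ^ i + 2 ^ i), a m) :
    ∀ᵐ ω ∂μ, Dns {n | ω ∈ A n} := by
  obtain ⟨V, hVd⟩ : ∃ V, V = VD μ ℱ A a (1 / 2) := ⟨_, rfl⟩
  have hV : ∀ n, MeasurableSet[ℱ n] (V n) := fun n => by rw [hVd]; exact VD_meas _ n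
  obtain ⟨n₁, hn₁⟩ := eventually_atTop.1 (ha0.eventually (eventually_le_nhds (show (0 : ℝ) < 1 by norm_num)))
  have hbc : ∀ᵐ ω ∂μ, ∀ᶠ i : ℕ in atTop, ω ∉ Em A (2 ^ i) (2 ^ i) \ WV V (2 ^ i) (2 ^ i) := by
    refine bc (b := fun i : ℕ => Real.exp (-(1 / 2 * i))) (summable_exp_neg (by norm_num)) ?_
    filter_upwards [hm, eventually_ge_atTop n₁] with i h1 h2
    have hi2 : n₁ ≤ 2 ^ i := h2.trans Nat.lt_two_pow_self.le
    have h3 := E_le (μ := μ) h.adapted hV (fun m => 1 / 2 * a m) (2 ^ i) (B := univ) MeasurableSet.univ (2 ^ i)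
      (fun m h1 _ => by
        have := hn₁ (m + 1) (by omega)
        linarith)
      (fun m h1 _ ω hω => by
        rw [hVd] at hω
        simp only [VD, mem_ofPred_eq, not_not] at hω
        have := (abs_le.1 hω).1
        linarith) (2 ^ i) le_rfl
    rw [univ_inter, probReal_univ, mul_one, ← Finset.mul_sum] at h3
    refine h3.trans (Real.exp_le_exp.2 ?_)
    linarith
  filter_upwards [hbc, no_VD h (show (0 : ℝ) < 1 / 2 by norm_num)] with ω g1 g2
  obtain ⟨n₀, hn₀⟩ := g2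
  obtain ⟨i₀, hi₀⟩ := eventually_atTop.1 g1
  unfold Dns
  filter_upwards [eventually_ge_atTop (2 ^ (max i₀ n₀))] with n hn
  have hn0 : n ≠ 0 := by
    have : 0 < 2 ^ (max i₀ n₀) := by positivity
    omega
  obtain ⟨j, hj⟩ : ∃ j, j = Nat.log 2 n := ⟨_, rfl⟩
  have h1 : 2 ^ j ≤ n := by rw [hj]; exact Nat.pow_log_le_self 2 hn0
  have h2 : n < 2 ^ (j + 1) := by rw [hj]; exact Nat.lt_pow_succ_log_self (by norm_num) n
  have h3 : max i₀ n₀ ≤ j := by
    rw [hj]
    exact Nat.le_log_of_pow_le (by norm_num) hn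
  have h3' : i₀ ≤ j + 1 := by
    have := le_max_left i₀ n₀
    omega
  have h3'' : n₀ ≤ j + 1 := by
    have := le_max_right i₀ n₀
    omega
  have hjj : j + 1 < 2 ^ (j + 1) := Nat.lt_two_pow_self
  have h4 : ω ∉ Em A (2 ^ (j + 1)) (2 ^ (j + 1)) := by
    intro h5
    apply hi₀ (j + 1) h3'
    refine ⟨h5, ?_⟩
    rintro ⟨k, h6, _, h7⟩
    rw [hVd] at h7
    exact hn₀ k (by omega) h7
  simp only [Em, mem_ofPred_eq] at h4
  push Not at h4
  obtain ⟨m, h5, h5', h6⟩ := h4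
  refine ⟨m, h6, by omega, ?_⟩
  have e1 : 2 ^ (j + 1) = 2 * 2 ^ j := by ring
  omega

variable {T : ℕ → ℕ}

lemma T_dns (h : Model μ ℱ A (aT T)) (hT : Monotone T) (hTs : Small T) :
    ∀ᵐ ω ∂μ, Dns {n | ω ∈ A n} :=
  dns_of_mass h (aT_nonneg T) (aT_tendsto T hTs) (aT_block T hT hTs)

lemma small_of (hTl : ∀ θ : ℝ, 0 < θ → ∀ᶠ n : ℕ in atTop, (T n : ℝ) ≤ (Real.log n) ^ θ) : Small T := by
  intro ε hε
  have h1 := (isLittleO_log_rpow_rpow_atTop 1 hε).bound one_pos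
  filter_upwards [hTl 1 one_pos, tendsto_natCast_atTop_atTop.eventually h1, tlog.eventually_ge_atTop 0,
    eventually_ge_atTop 1] with n g1 g2 g3 g4
  have hn0 : (0 : ℝ) < n := by exact_mod_cast g4
  rw [one_mul, Real.norm_of_nonneg (by positivity), Real.norm_of_nonneg (by positivity)] at g2
  exact g1.trans g2

/-- no empty windows of length `c log² n`, `c > 1`, for small sieves -/
lemma small_zero (h : Model μ ℱ A (aT T)) (hT : Monotone T)
    (hTl : ∀ θ : ℝ, 0 < θ → ∀ᶠ n : ℕ in atTop, (T n : ℝ) ≤ (Real.log n) ^ θ) :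
    ∀ᵐ ω ∂μ, ∀ c : ℚ, 1 < (c : ℝ) → ∀ᶠ i : ℕ in atTop, ZZ {n | ω ∈ A n} c i = 0 := by
  filter_upwards [counts h (aT_nonneg T) (aT_tendsto T (small_of hTl))] with ω hω c hc
  have hc0 : (0 : ℝ) < c := by linarith
  have hcq : (0 : ℚ) ≤ c := by exact_mod_cast hc0.le
  obtain ⟨η, hη0, hη1, hη2⟩ : ∃ η : ℝ, 0 < η ∧ η ≤ 1 ∧ 1 + 2 * η ≤ (1 - η) * c := by
    refine ⟨min 1 (((c : ℝ) - 1) / (2 + c)), lt_min one_pos (by
      apply div_pos <;> linarith), min_le_left _ _, ?_⟩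
    have h2 := min_le_right 1 (((c : ℝ) - 1) / (2 + c))
    have h3 : min 1 (((c : ℝ) - 1) / (2 + c)) * (2 + c) ≤ ((c : ℝ) - 1) / (2 + c) * (2 + c) :=
      mul_le_mul_of_nonneg_right h2 (by linarith)
    have h4 : ((c : ℝ) - 1) / (2 + c) * (2 + c) = c - 1 := by field_simp
    linarith
  obtain ⟨θ, hθ, H⟩ := regular η hη0 hη1
  have h2 := EE_of_regular hc0 hη0 hη1 (H T hT (hTl θ hθ) c hc0)
  filter_upwards [h2, hω c hcq η hη0, eventually_gt_atTop 0] with i h3 h4 h5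
  have hi : (0 : ℝ) < i := by exact_mod_cast h5
  have h6 : (ZZ {n | ω ∈ A n} (c : ℝ) i : ℝ) < 1 := by
    calc (ZZ {n | ω ∈ A n} (c : ℝ) i : ℝ) ≤ (2 : ℝ) ^ (η * i) * EE (aT T) c i := h4.1
      _ ≤ (2 : ℝ) ^ (η * i) * (2 : ℝ) ^ ((1 - (1 - η) * c) * i) :=
        mul_le_mul_of_nonneg_left h3.2 (by positivity)
      _ = (2 : ℝ) ^ ((η + (1 - (1 - η) * c)) * i) := by
        rw [← Real.rpow_add (by norm_num)]
        congr 1
        ring
      _ < (2 : ℝ) ^ (0 : ℝ) := by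
        apply Real.rpow_lt_rpow_of_exponent_lt (by norm_num)
        have : η + (1 - (1 - η) * c) < 0 := by linarith
        nlinarith
      _ = 1 := Real.rpow_zero _
  have h7 : ZZ {n | ω ∈ A n} (c : ℝ) i < 1 := by exact_mod_cast h6
  omega

/-- empty windows in all blocks, every sieve -/
lemma general_pos (h : Model μ ℱ A (aT T)) (hT : Monotone T) (hTs : Small T) :
    ∀ᵐ ω ∂μ, ∀ c : ℚ, 0 < c → (c : ℝ) < 1 → ∀ᶠ i : ℕ in atTop, 0 < ZZ {n | ω ∈ A n} c i := by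
  filter_upwards [counts h (aT_nonneg T) (aT_tendsto T hTs)] with ω hω c hc hc1
  have hc0 : (0 : ℝ) < c := by exact_mod_cast hc
  have h1 := ZZ_ge {n | ω ∈ A n} (show 0 < 1 - (c : ℝ) by linarith)
    (fun ε hε => (hω c hc.le ε hε).mono fun i hi => hi.2)
    (fun ε hε => EE_general T hT hTs hc0 hε) 1 one_pos
  exact h1.mono fun i hi => pos_of_ge hi

/-- empty windows in all blocks, sieves near `log n` -/
lemma near_pos (h : Model μ ℱ A (aT T)) (hT : Monotone T) (hN : Near T) :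
    ∀ᵐ ω ∂μ, ∀ c : ℚ, 0 < c → (c : ℝ) < 2 * Real.exp (-Real.eulerMascheroniConstant) →
      ∀ᶠ i : ℕ in atTop, 0 < ZZ {n | ω ∈ A n} c i := by
  filter_upwards [counts h (aT_nonneg T) (aT_tendsto T hN.small)] with ω hω c hc hc1
  have hc0 : (0 : ℝ) < c := by exact_mod_cast hc
  have hβ : 0 < 1 - c * Real.exp Real.eulerMascheroniConstant / 2 := by
    have h1 : c * Real.exp Real.eulerMascheroniConstant <
        2 * Real.exp (-Real.eulerMascheroniConstant) * Real.exp Real.eulerMascheroniConstant :=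
      mul_lt_mul_of_pos_right hc1 (Real.exp_pos _)
    rw [mul_assoc, ← Real.exp_add, neg_add_cancel, Real.exp_zero] at h1
    linarith
  have h1 := ZZ_ge {n | ω ∈ A n} hβ
    (fun ε hε => (hω c hc.le ε hε).mono fun i hi => hi.2)
    (fun ε hε => EE_near T hT hN hc0 hε) 1 one_pos
  exact h1.mono fun i hi => pos_of_ge hi

/-- every sieve: the upper limit of `log p(g) / √g` is at most `1` -/
theorem general (h : Model μ ℱ A (aT T)) (hT : Monotone T) (hTs : Small T) :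
    ∀ᵐ ω ∂μ, ∀ ε : ℝ, 0 < ε → ∀ᶠ g : ℕ in atTop, (After {n | ω ∈ A n} g).Nonempty ∧
      Real.log (fst {n | ω ∈ A n} g) / √g ≤ 1 + ε := by
  filter_upwards [T_dns h hT hTs, general_pos h hT hTs] with ω h1 h2 ε hε
  have h3 := limsup_le _ h1 one_pos h2 hε
  simpa using h3

/-- small sieves: Shanks' conjecture -/
theorem small (h : Model μ ℱ A (aT T)) (hT : Monotone T)
    (hTl : ∀ θ : ℝ, 0 < θ → ∀ᶠ n : ℕ in atTop, (T n : ℝ) ≤ (Real.log n) ^ θ) :
    ∀ᵐ ω ∂μ, Tendsto (fun g : ℕ => Real.log (fst {n | ω ∈ A n} g) / √g) atTop (𝓝 1) := by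
  filter_upwards [general h hT (small_of hTl), small_zero h hT hTl] with ω h1 h2
  rw [Metric.tendsto_atTop']
  intro ε hε
  obtain ⟨N, hN⟩ := eventually_atTop.1 ((h1 (ε / 2) (by positivity)).and
    (le_liminf {n | ω ∈ A n} one_pos h2 (show 0 < ε / 2 by positivity)))
  refine ⟨N, fun g hg => ?_⟩
  obtain ⟨h3, h4⟩ := hN g hg.le
  have h5 := h4 h3.1
  rw [Real.sqrt_one, div_one] at h5
  rw [Real.dist_eq, abs_lt]
  constructor <;> linarith [h3.2]

/-- sieves near `log n`: the upper limit is at most `√(exp γ / 2)` -/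
theorem near (h : Model μ ℱ A (aT T)) (hT : Monotone T) (hN : Near T) :
    ∀ᵐ ω ∂μ, ∀ ε : ℝ, 0 < ε → ∀ᶠ g : ℕ in atTop, (After {n | ω ∈ A n} g).Nonempty ∧
      Real.log (fst {n | ω ∈ A n} g) / √g ≤ √(Real.exp Real.eulerMascheroniConstant / 2) + ε := by
  filter_upwards [T_dns h hT hN.small, near_pos h hT hN] with ω h1 h2 ε hε
  have h3 := limsup_le _ h1 (show 0 < 2 * Real.exp (-Real.eulerMascheroniConstant) by positivity) h2 hε
  have e : 1 / √(2 * Real.exp (-Real.eulerMascheroniConstant)) =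
      √(Real.exp Real.eulerMascheroniConstant / 2) := by
    rw [one_div, ← Real.sqrt_inv]
    congr 1
    rw [Real.exp_neg]
    field_simp
  rw [e] at h3
  exact h3

lemma const_lt : √(Real.exp Real.eulerMascheroniConstant / 2) < 1 := by
  rw [Real.sqrt_lt' one_pos, one_pow, div_lt_one (by norm_num)]
  have h1 := Real.eulerMascheroniConstant_lt_two_thirds
  have h2 := Real.log_two_gt_d9
  calc Real.exp Real.eulerMascheroniConstant < Real.exp (Real.log 2) := Real.exp_lt_exp.2 (by linarith)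
    _ = 2 := Real.exp_log (by norm_num)

end Pool.Agent.U215.Sk
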